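import Pool.Agent.Helper49.RU.St

/-!
Project RU (MP_a60174_an), module GEN: the generic chain.
-/

set_option autoImplicit false

namespace Pool.Agent.Helper11.RU

open Pool.Agent.Helper49.RU
open MeasureTheory Filter Topology Complex
open scoped ENNReal Cardinal ComplexConjugate

private abbrev TT : Type := Set Idx ⊕ ((Idx → ℝ) × ℕ) ⊕ ((Idx → H) × ℕ)

private abbrev PP : Type := {X : Set Code // Cond X}

private def leP (X Y : PP) : Prop := AL X.1 Y.1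

private def DD : TT → Set PP
  | Sum.inl B => {X | (∀ c ∈ X.1, ∀ g ∈ c.2, (⟨c.1, g⟩ : Idx) ∈ B) ∨
      (∀ c ∈ X.1, ∀ g ∈ c.2, (⟨c.1, g⟩ : Idx) ∉ B)}
  | Sum.inr (Sum.inl p) => {X | (∃ M : H →L[ℝ] H, ∀ i, p.1 i = tst (⇑M) (zeta i)) →
      ∀ c ∈ X.1, ∀ g ∈ c.2, |p.1 ⟨c.1, g⟩| ≤ 1 / ((p.2 : ℝ) + 1)}
  | Sum.inr (Sum.inr p) => {X | (∀ i, ‖p.1 i‖ ≤ 1) → ∃ T : H →L[ℂ] H, ∀ c ∈ X.1, ∀ g ∈ c.2,
      ‖T (p.1 ⟨c.1, g⟩) - pz (zeta ⟨c.1, g⟩) (p.1 ⟨c.1, g⟩)‖ ≤ 1 / ((p.2 : ℝ) + 1)}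

private theorem AL_refl (X : Set Code) : AL X X := ⟨0, fun _ hc _ _ => hc⟩

private theorem AL_of_subset {X Y Z : Set Code} (h : Y ⊆ X) (hZ : AL X Z) : AL Y Z := by
  obtain ⟨j, hj⟩ := hZ
  exact ⟨j, fun c hc h1 h2 => hj c (h hc) h1 h2⟩

private theorem dense (hTSA : StTSA) (hTSB : StTSB) (hTSC : StTSC) (t : TT) (X : Set Code)
    (hX : Cond X) : ∃ Y ∈ DD t, Y.1 ⊆ X := by
  rcases t with B | p | p
  · obtain ⟨Y, hYX, hY, h⟩ := hTSA X hX B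
    exact ⟨⟨Y, hY⟩, h, hYX⟩
  · by_cases hM : ∃ M : H →L[ℝ] H, ∀ i, p.1 i = tst (⇑M) (zeta i)
    · obtain ⟨M, hM'⟩ := hM
      obtain ⟨Y, hYX, hY, h⟩ := hTSB X hX M (1 / ((p.2 : ℝ) + 1)) (by positivity)
      refine ⟨⟨Y, hY⟩, ?_, hYX⟩
      intro _ c hc g hg
      rw [hM']
      exact h c hc g hg
    · exact ⟨⟨X, hX⟩, fun h => absurd h hM, le_refl _⟩
  · by_cases hw : ∀ i, ‖p.1 i‖ ≤ 1
    · obtain ⟨Y, hYX, hY, T, h⟩ := hTSC X hX p.1 (1 / ((p.2 : ℝ) + 1)) hw (by positivity)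
      exact ⟨⟨Y, hY⟩, fun _ => ⟨T, h⟩, hYX⟩
    · exact ⟨⟨X, hX⟩, fun h => absurd h hw, le_refl _⟩

private theorem exists_nat_le (ε : ℝ) (hε : 0 < ε) : ∃ n : ℕ, 1 / ((n : ℝ) + 1) ≤ ε := by
  obtain ⟨n, hn⟩ := exists_nat_one_div_lt hε
  exact ⟨n, hn.le⟩

theorem hGEN (hREC : StREC) (hLBD : StLBD) (hTSA : StTSA) (hTSB : StTSB) (hTSC : StTSC)
    (hCRD : StCRD) : StGEN := by
  intro hP
  obtain ⟨r, hr, hord⟩ := Cardinal.exists_ord_eq TT
  have := hr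
  have hseg : ∀ i : TT, #{j // r j i} < 𝔠 := by
    intro i
    have h1 : #{j // r j i} < #TT := by
      have h2 := Cardinal.card_typein_lt i hord
      exact h2
    exact lt_of_lt_of_le h1 hCRD
  have key := hREC TT PP r leP DD (by
    intro i h hdec
    have hcomp : ∀ a b : {j // r j i}, AL (h a).1 (h b).1 ∨ AL (h b).1 (h a).1 := by
      intro a b
      rcases trichotomous_of r (a : TT) (b : TT) with hab | hab | hab
      · exact Or.inr (hdec a b hab)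
      · have : a = b := Subtype.ext hab
        subst this
        exact Or.inl (AL_refl _)
      · exact Or.inl (hdec b a hab)
    obtain ⟨W, hW, hWX⟩ := hLBD hP {j // r j i} (fun a => (h a).1) (hseg i)
      (fun a => (h a).2) hcomp
    obtain ⟨Y, hYD, hYW⟩ := dense hTSA hTSB hTSC i W hW
    exact ⟨Y, hYD, fun a => AL_of_subset hYW (hWX a)⟩)
  obtain ⟨G, hGD, hGle⟩ := key
  refine ⟨TT, fun t => (G t).1, fun t => (G t).2, ?_, ?_, ?_, ?_⟩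
  · intro t t'
    rcases trichotomous_of r t t' with h | h | h
    · exact Or.inr (hGle t' t h)
    · subst h
      exact Or.inl (AL_refl _)
    · exact Or.inl (hGle t t' h)
  · intro B
    exact ⟨Sum.inl B, hGD (Sum.inl B)⟩
  · intro M ε hε
    obtain ⟨n, hn⟩ := exists_nat_le ε hε
    refine ⟨Sum.inr (Sum.inl (fun i => tst (⇑M) (zeta i), n)), ?_⟩
    intro c hc g hg
    have h := hGD (Sum.inr (Sum.inl (fun i => tst (⇑M) (zeta i), n)))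
    exact le_trans (h ⟨M, fun _ => rfl⟩ c hc g hg) hn
  · intro w ε hw hε
    obtain ⟨n, hn⟩ := exists_nat_le ε hε
    have h := hGD (Sum.inr (Sum.inr (w, n)))
    obtain ⟨T, hT⟩ := h hw
    exact ⟨Sum.inr (Sum.inr (w, n)), T, fun c hc g hg => le_trans (hT c hc g hg) hn⟩

end Pool.Agent.Helper11.RU
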